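import Pool.Agent.Helper5.DubGen.GTop

/-!
# Big quantum cohomology of a Fano manifold is decided on a generating subspace
-/

open Pool.Agent.Helper18.Dub Pool.Agent.Helper1.DubProd Pool.Agent.Helper5.DubGen

namespace Pool.Agent.Results.MP_78bf89_ag.GeneratingSubspace

/-- Let `X` be a Fano manifold, `H'` the span of the classes `φ_a`, `a ∈ κ`, of a homogeneous basis
of its cohomology indexed by `κ ⊕ ν`, `K` the field of fractions of `ℂ[[t_a : a ∈ κ]]`,
`A = matAlg X.resMat` the quantum cohomology algebra at the generic point of `H'` and
`C = genSub X` its subalgebra generated by `H'`, `c_1(X)` and all semisimple elements.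
(A) If `A = C`, then the rank of the trace form at the generic point of the whole cohomology equals
that of `A`, and big quantum cohomology is generically semisimple if and only if `A` is semisimple.
This applies if the small quantum cohomology algebra is generated by `H'`, `c_1(X)` and idempotents,
and if the cohomology ring is generated by `H'` and `c_1(X)`.
(B) More generally let `e ∈ A` be an idempotent with `e A = e C`. A space `W` of nilpotent elements
of `e A` satisfies `s(X) + dim W ≤ dim H`, where `s(X)` is the rank of the trace form at the generic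
point of the cohomology; so if big quantum cohomology is generically semisimple, `e` kills all
nilpotent elements of `A`. -/
theorem result {κ ν : Type} [Fintype κ] [DecidableEq κ] [Fintype ν] [DecidableEq ν]
    (X : FanoGW (κ ⊕ ν)) :
    (genSub X = matAlg X.resMat →
      traceRank X = traceRankRes X ∧
      (X.IsGenericallySemisimple ↔ IsSemisimpleRing (matAlg X.resMat))) ∧
    (SmallGenerated X ∨ CupGenerated X → genSub X = matAlg X.resMat) ∧
    ∀ e ∈ matAlg X.resMat, e * e = e →
      (∀ M ∈ matAlg X.resMat, ∃ M' ∈ genSub X, e * M = e * M') →
      (∀ W : Submodule (FractionRing (MvPowerSeries κ ℂ))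
          (Matrix (κ ⊕ ν) (κ ⊕ ν) (FractionRing (MvPowerSeries κ ℂ))),
        (∀ M ∈ W, M ∈ matAlg X.resMat ∧ IsNilpotent M ∧ e * M = M) →
        traceRank X + Module.finrank (FractionRing (MvPowerSeries κ ℂ)) W ≤
          Fintype.card (κ ⊕ ν)) ∧
      (X.IsGenericallySemisimple → ∀ M ∈ matAlg X.resMat, IsNilpotent M → e * M = 0) :=
  ⟨G.partB X, fun h => h.elim (G.partC X) (G.partD X), fun _ he hee hgen =>
    ⟨fun W hW => G.partA2 X he hee hgen W hW,
      fun hss _ hM hnil => G.partA1 X he hee hgen hss hM hnil⟩⟩

end Pool.Agent.Results.MP_78bf89_ag.GeneratingSubspace
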