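import Pool.Agent.PQR.MainQ

/-!
# Deterministic polynomial-time identity testing: formulas in quadratic polynomials

For fixed `r` and `k` there is a deterministic Turing machine which decides in polynomial time
whether `Q(F_0, ..., F_{m-1}) = 0`. Here `Q` is an arbitrary arithmetic formula over the rationals
and at most `k` of the polynomials `F_j` are algebraically independent (for instance `m = k`, and
`Q` is the sum of its variables). A composite is a pair of a formula `P` and a list of formulas
`q_0, q_1, ...`; its polynomial is `P(q_0, q_1, ...)`. Every `F_j` is given by a pair `(A, B)` of
lists of composites: it is the product of the composites in the list `A`, times the SUM of the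
composites in the list `B`.

The promise `IsQuad r Z`: in every composite there are at most `r` formulas `q_i`, and all of them
compute polynomials of degree at most two in the variables outside `Z`. Here `Z` is a set of at most
`r` variables, the same for the whole input, which is not given to the algorithm (with `Z` empty:
the `q_i` are polynomials of degree at most two). The formulas `P` are arbitrary. So `F_j` is a
product of any number of formulas in `r` quadratic polynomials, times a sum of any number of such
formulas.

The input consists of the codes of `Q` and of all the formulas.
-/

namespace Pool.Agent.Results.MP_e2be99_lc.QuadraticFormulasInP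

open N487b59b3 N68a2faeb MvPolynomial
open Pool.Agent.Helper6.WB (Fm)
open Pool.Agent.PQR.MainQ (Pair pairPoly pairCode IsQuad)

theorem result : ∀ r k : ℕ,
    ∃ f : List (ℕ × ℚ) × List (List (List (ℕ × ℚ) × List (List (ℕ × ℚ))) ×
      List (List (ℕ × ℚ) × List (List (ℕ × ℚ)))) → Bool,
    IsPolyTime f ∧ ∀ (Q : Fm) (L : List Pair) (Z : Finset ℕ), Z.card ≤ r →
      (∀ p ∈ L, ∀ c ∈ p.1 ++ p.2, IsQuad r Z c) →
      (∀ b : Finset (Fin L.length), AlgebraicIndepOn ℚ (fun j => pairPoly (L.get j))
        (b : Set (Fin L.length)) → b.card ≤ k) →
      (f (Q.code, L.map pairCode) = true ↔
        aeval (fun j => pairPoly (L.getD j ([], []))) Q.poly = 0) :=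
  Pool.Agent.PQR.MainQ.mainQ

end Pool.Agent.Results.MP_e2be99_lc.QuadraticFormulasInP
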